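import Pool.Agent.helper52.FS.SpecP

/-!
# Project FS (MP_07c750_an), row LSO: one cell
-/

open MeasureTheory Set

set_option autoImplicit false

namespace Pool.Agent.FS

theorem LSO_ee_add (s t : ℝ) : ee (s + t) = ee s * ee t := by
  rw [ee, ee, ee, ← Complex.exp_add]
  congr 1
  push_cast
  ring

theorem LSO_ee_norm (s : ℝ) : ‖ee s‖ = 1 := by
  rw [ee]
  exact Complex.norm_exp_ofReal_mul_I s

theorem LSO_ee_cont : Continuous ee := by
  unfold ee
  exact Complex.continuous_exp.comp (Complex.continuous_ofReal.mul continuous_const)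

theorem LSO_G_cont (P : ℕ) (S : Finset ℤ) (a : ℤ → ℂ) : Continuous (GP P S a) := by
  unfold GP
  exact continuous_finset_sum _ fun k _ => continuous_const.mul (LSO_ee_cont.comp (continuous_const.mul continuous_id))

theorem LSO_G_bd (P : ℕ) (S : Finset ℤ) (a : ℤ → ℂ) (x : ℝ) : ‖GP P S a x‖ ≤ ∑ k ∈ S, ‖a k‖ := by
  unfold GP
  refine (norm_sum_le _ _).trans (Finset.sum_le_sum fun k _ => ?_)
  rw [norm_mul, LSO_ee_norm, mul_one]

theorem LSO_qm (c x0 η : ℝ) (P : ℕ) (S : Finset ℤ) (a : ℤ → ℂ) (x : ℝ) :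
    qm c x0 η (GP P S a) x =
      qq S (fun k => a k * ee (2 * Real.pi * k / P * x0) * ∫ s in Icc (-(c / 2)) (c / 2), ee ((η - 2 * Real.pi * k / P) * s))
        (fun k => 2 * Real.pi * k / P) x := by
  rw [qm, qq]
  congr 1
  have h1 : ∀ s : ℝ, GP P S a (x0 + x - s) * ee (η * s) =
      ∑ k ∈ S, a k * ee (2 * Real.pi * k / P * x0) * ee (2 * Real.pi * k / P * x) * ee ((η - 2 * Real.pi * k / P) * s) := by
    intro s
    rw [GP, Finset.sum_mul]
    refine Finset.sum_congr rfl fun k _ => ?_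
    have h2 : ee (2 * Real.pi * k / P * (x0 + x - s)) * ee (η * s) =
        ee (2 * Real.pi * k / P * x0) * ee (2 * Real.pi * k / P * x) * ee ((η - 2 * Real.pi * k / P) * s) := by
      rw [← LSO_ee_add, ← LSO_ee_add, ← LSO_ee_add]
      congr 1
      ring
    rw [mul_assoc, h2]
    ring
  simp only [h1]
  rw [integral_finset_sum]
  · refine Finset.sum_congr rfl fun k _ => ?_
    rw [integral_const_mul]
    ring
  · intro k _
    refine (Continuous.integrableOn_Icc ?_)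
    exact continuous_const.mul (LSO_ee_cont.comp (continuous_const.mul continuous_id))

theorem LSO_proof (hU : UNQ_stmt) (hS : STF_stmt) : LSO_stmt := by
  intro c R2 ε hc hc1 hR2 hε
  obtain ⟨C, hC1, hST⟩ := hS c hc hc1
  -- the first index
  obtain ⟨i1, hi1⟩ : ∃ i1 : ℕ, 2 * R2 + 8 / c ≤ 2 ^ i1 := by
    obtain ⟨n, hn⟩ := pow_unbounded_of_one_lt (2 * R2 + 8 / c) (by norm_num : (1 : ℝ) < 2)
    exact ⟨n, hn.le⟩
  have hq0 : 0 < c / 2 * (c / 8) ^ 2 / 200 := by positivity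
  obtain ⟨q, hq⟩ : ∃ q : ℝ, q = c / 2 * (c / 8) ^ 2 / 200 := ⟨_, rfl⟩
  rw [← hq] at hq0
  -- the second index
  obtain ⟨n, hn⟩ : ∃ n : ℕ, C * Real.exp (-(q * n)) ^ 2 ≤ ε := by
    obtain ⟨n, hn⟩ := exists_nat_gt (C / ε / (2 * q))
    refine ⟨n, ?_⟩
    rw [← Real.exp_nat_mul]
    have h1 : C / ε ≤ Real.exp (2 * q * n) := by
      have h2 : C / ε ≤ 2 * q * n := by
        rw [div_lt_iff₀ (by positivity)] at hn
        linarith
      have h3 := Real.add_one_le_exp (2 * q * n)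
      linarith
    rw [div_le_iff₀ hε] at h1
    have h4 : ((2 : ℕ) : ℝ) * -(q * n) = -(2 * q * n) := by
      push_cast
      ring
    rw [h4, Real.exp_neg, ← div_eq_mul_inv, div_le_iff₀ (Real.exp_pos _)]
    linarith
  obtain ⟨i2, hi2⟩ : ∃ i2 : ℕ, i2 = i1 + n := ⟨_, rfl⟩
  have h12 : i1 ≤ i2 := by omega
  obtain ⟨δ, hδ⟩ : ∃ δ : ℝ, δ = Real.exp (-(c / 2 * (c / 8) ^ 2 * ((i2 : ℝ) - i1) / 200)) := ⟨_, rfl⟩
  have hδ' : δ = Real.exp (-(q * n)) := by
    rw [hδ, hq, hi2]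
    congr 1
    push_cast
    ring
  have hδ0 : 0 ≤ δ := by
    rw [hδ]
    exact (Real.exp_pos _).le
  obtain ⟨B, hB⟩ : ∃ B : ℝ, B = δ * Real.exp (c / 2 * 2 ^ (i2 + 3)) := ⟨_, rfl⟩
  have hB0 : 0 ≤ B := by
    rw [hB]
    exact mul_nonneg hδ0 (Real.exp_pos _).le
  have h8c : 0 < 8 / c := by positivity
  have hp : (2 : ℝ) ^ i1 ≤ 2 ^ i2 := pow_le_pow_right₀ (by norm_num) h12
  refine ⟨max 1 (C * B ^ 2), 2 ^ i2, le_max_left _ _, by linarith, ?_⟩
  intro P S a x0 hP hgap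
  have hη : ∀ η : ℝ, ‖∫ t in Ioi (0 : ℝ), (Real.exp (-t) : ℂ) * ee (η * t) * qm c x0 η (GP P S a) (-t)‖ ≤
      δ * (∫ x, ‖qm c x0 η (GP P S a) x‖) + B * ∫ x in Icc (-(c / 2)) (c / 2), ‖qm c x0 η (GP P S a) x‖ := by
    intro η
    have h := hU (c / 2) (c / 8) η i1 i2 S
      (fun k => a k * ee (2 * Real.pi * k / P * x0) * ∫ s in Icc (-(c / 2)) (c / 2), ee ((η - 2 * Real.pi * k / P) * s))
      (fun k => 2 * Real.pi * k / P) (by positivity) (by linarith) (by positivity) (by linarith) h12 (by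
        intro i hi hi'
        have h1 : (2 : ℝ) ^ i1 ≤ 2 ^ i := pow_le_pow_right₀ (by norm_num) hi
        have h2 : (2 : ℝ) ^ i ≤ 2 ^ i2 := pow_le_pow_right₀ (by norm_num) hi'.le
        obtain ⟨y, hy, hk⟩ := hgap (2 ^ i / 2) (by linarith) (by linarith) (η + 2 ^ i)
        rw [mem_Icc] at hy
        refine ⟨y - η, by linarith [hy.1], by linarith [hy.2], fun k hkS => ?_⟩
        have h3 := hk k hkS
        have h4 : 2 * Real.pi * (k : ℝ) / P - η - (y - η) = 2 * Real.pi * k / P - y := by ring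
        show c / 8 * 2 ^ i + 1 < |2 * Real.pi * (k : ℝ) / P - η - (y - η)|
        rw [h4]
        refine lt_of_lt_of_le ?_ h3
        have h5 : 8 / c ≤ 2 ^ i := by linarith
        rw [div_le_iff₀ hc] at h5
        linarith)
    simp only [← LSO_qm] at h
    refine h.trans (le_of_eq ?_)
    rw [← hδ, hB]
    ring
  have h := hST x0 δ B (∑ k ∈ S, ‖a k‖) (GP P S a) hδ0 hB0 (LSO_G_cont P S a) (LSO_G_bd P S a) hη
  refine h.trans ?_
  have hI1 : 0 ≤ ∫ u, ‖GP P S a (x0 + u)‖ ^ 2 / (1 + u ^ 2) := integral_nonneg fun u => by positivity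
  have hI2 : 0 ≤ ∫ u in Icc (-c) c, ‖GP P S a (x0 + u)‖ ^ 2 := integral_nonneg fun u => by positivity
  rw [mul_add]
  refine add_le_add ?_ ?_
  · rw [← mul_assoc]
    refine mul_le_mul_of_nonneg_right ?_ hI1
    rw [hδ']
    exact hn
  · rw [← mul_assoc]
    exact mul_le_mul_of_nonneg_right (le_max_right _ _) hI2

end Pool.Agent.FS
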