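import Pool.Agent.helper87.FS.Spec

set_option autoImplicit false

/-!
Row fs:OD2 (MP_abccb5_co): a subspace of dimension `d` contains at most `2 ^ d` vectors with entries `0, 1`.
-/

namespace Pool.Agent.FS

open Polynomial Matrix Pool.Agent.helper42.NS

/-- `d` coordinates determine the vectors of a subspace of dimension `d` -/
theorem OD2_coord (K : Type) [Field K] (N : ℕ) (W : Submodule K (Fin N → K)) :
    ∃ J : Finset (Fin N), J.card ≤ Module.finrank K W ∧ ∀ v ∈ W, (∀ j ∈ J, v j = 0) → v = 0 := by
  classical
  obtain ⟨κ, a, ha, hs, hl⟩ := exists_linearIndependent' K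
    (fun i : Fin N => ((LinearMap.proj i : (Fin N → K) →ₗ[K] K).comp W.subtype : Module.Dual K W))
  have : Finite κ := Finite.of_injective a ha
  have : Fintype κ := Fintype.ofFinite κ
  refine ⟨Finset.univ.image a, ?_, fun v hv h => ?_⟩
  · rw [Finset.card_image_of_injective _ ha, Finset.card_univ]
    have h1 := hl.fintype_card_le_finrank
    rwa [Subspace.dual_finrank_eq] at h1
  · have h1 : Submodule.span K (Set.range fun i : Fin N =>
        ((LinearMap.proj i : (Fin N → K) →ₗ[K] K).comp W.subtype : Module.Dual K W)) ≤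
        LinearMap.ker (Module.Dual.eval K W ⟨v, hv⟩) := by
      rw [← hs, Submodule.span_le]
      rintro _ ⟨k, rfl⟩
      rw [SetLike.mem_coe, LinearMap.mem_ker]
      exact h (a k) (Finset.mem_image_of_mem _ (Finset.mem_univ k))
    funext i
    have h2 := h1 (Submodule.subset_span (Set.mem_range_self i))
    rw [LinearMap.mem_ker] at h2
    exact h2

/-- **OD2** -/
theorem OD2 : OD2_stmt := by
  intro K _ N W
  obtain ⟨J, hJ, hv⟩ := OD2_coord K N W
  have h1 : Set.ncard {b : Fin N → Bool | (fun i => if b i then (1 : K) else 0) ∈ W} ≤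
      Set.ncard (Set.univ : Set (J → Bool)) := by
    refine Set.ncard_le_ncard_of_injOn (fun b j => b j.1) (fun b _ => Set.mem_univ _) ?_
      Set.finite_univ
    intro b hb b' hb' h
    have h2 : (fun i => if b i then (1 : K) else 0) - (fun i => if b' i then (1 : K) else 0) = 0 := by
      refine hv _ (W.sub_mem hb hb') fun j hj => ?_
      have h3 : b j = b' j := congrFun h ⟨j, hj⟩
      rw [Pi.sub_apply, h3, sub_self]
    funext i
    have h4 := congrFun h2 i
    rw [Pi.sub_apply, Pi.zero_apply, sub_eq_zero] at h4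
    rcases hb1 : b i with _ | _ <;> rcases hb2 : b' i with _ | _ <;> simp_all
  refine h1.trans ?_
  rw [Set.ncard_univ, Nat.card_eq_fintype_card, Fintype.card_fun, Fintype.card_bool, Fintype.card_coe]
  exact Nat.pow_le_pow_right (by norm_num) hJ

end Pool.Agent.FS
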